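import Pool.Agent.Run7.h276.BS.Defs

/-!
# The open covers
-/

set_option autoImplicit false
set_option linter.unusedSectionVars false

open Filter Topology
open scoped NNReal

namespace Run7.h276.BS

variable {H : Type*} [NormedAddCommGroup H] [InnerProductSpace ℂ H] [CompleteSpace H]

/-- the semigroup law up to `1/(k+1)` after inserting the projection to `V`. -/
def RProp (x : ℕ → H) (A : ℝ≥0 → H →L[ℂ] H) (V : Submodule ℂ H) [FiniteDimensional ℂ V]
    (k : ℕ) : Prop :=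
  ∀ i ≤ k, ∀ j ≤ k, ∀ s t : ℝ≥0, s ≤ k → t ≤ k →
    ‖inner ℂ (A (t + s) (x i)) (x j) - inner ℂ (A t (V.starProjection (A s (x i)))) (x j)‖
      ≤ 1 / ((k : ℝ) + 1)

theorem exists_delta_finset {x : ℕ → H} (hx0 : ∀ i, x i ≠ 0) (hx : DenseRange x)
    (F : Finset (H × H)) (n : ℕ) {ε : ℝ} (hε : 0 < ε) :
    ∃ δ : ℝ, 0 < δ ∧ ∀ T S : ContrSemigroup H, dst x T S < δ → ∀ p ∈ F,
      ∀ t : ℝ≥0, t ≤ n → ‖inner ℂ ((T.T t - S.T t) p.1) p.2‖ < ε := by
  classical
  induction F using Finset.induction_on with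
  | empty => exact ⟨1, one_pos, fun T S _ p hp => absurd hp (Finset.notMem_empty _)⟩
  | insert a F _ ih =>
    obtain ⟨δ₁, h1, h2⟩ := ih
    obtain ⟨δ₂, h3, h4⟩ := exists_delta x hx0 hx a.1 a.2 n hε
    refine ⟨min δ₁ δ₂, lt_min h1 h3, fun T S hd p hp t ht => ?_⟩
    rcases Finset.mem_insert.mp hp with rfl | hp
    · exact h4 T S (hd.trans_le (min_le_right _ _)) t ht
    · exact h2 T S (hd.trans_le (min_le_left _ _)) p hp t ht

theorem exists_cover {x : ℕ → H} (hx0 : ∀ i, x i ≠ 0) (hx : DenseRange x)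
    (S : ContrSemigroup H) (k : ℕ) :
    ∃ (V : Submodule ℂ H) (_ : FiniteDimensional ℂ V), (∀ i ≤ k, x i ∈ V) ∧
      ∃ r : ℝ, 0 < r ∧ ∀ S' : ContrSemigroup H, dst x S' S < r → RProp x S'.T V k := by
  classical
  set C : ℝ := 1 + ∑ j ∈ Finset.range (k + 1), ‖x j‖ with hC
  have hC1 : 1 ≤ C := by
    have : 0 ≤ ∑ j ∈ Finset.range (k + 1), ‖x j‖ := Finset.sum_nonneg fun _ _ => norm_nonneg _
    linarith
  have hC0 : 0 < C := by linarith
  have hxC : ∀ j ≤ k, ‖x j‖ ≤ C := by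
    intro j hj
    have := Finset.single_le_sum (f := fun j => ‖x j‖) (fun _ _ => norm_nonneg _)
      (Finset.mem_range.mpr (Nat.lt_succ_of_le hj))
    linarith
  have hk0 : (0 : ℝ) < (k : ℝ) + 1 := by positivity
  set ε₀ : ℝ := 1 / (8 * ((k : ℝ) + 1) * C) with hε₀
  have hε₀0 : 0 < ε₀ := by positivity
  -- the compact set of orbit pieces
  set K : Set H := ⋃ i ∈ Finset.range (k + 1), (fun t : ℝ≥0 => S.T t (x i)) ''
    Set.Icc (0 : ℝ≥0) (k : ℝ≥0) with hK
  have hKc : IsCompact K :=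
    (Finset.range (k + 1)).isCompact_biUnion fun i _ => isCompact_Icc.image (S.cont (x i))
  obtain ⟨F, hF, hcov⟩ := Metric.totallyBounded_iff.mp hKc.totallyBounded ε₀ hε₀0
  obtain ⟨V, hVf, hVx, hVF⟩ : ∃ V : Submodule ℂ H, FiniteDimensional ℂ V ∧
      (∀ i ≤ k, x i ∈ V) ∧ ∀ y ∈ F, y ∈ V := by
    have hfin : (F ∪ x '' {i | i ≤ k}).Finite := hF.union ((Set.finite_le_nat k).image x)
    exact ⟨Submodule.span ℂ (F ∪ x '' {i | i ≤ k}), FiniteDimensional.span_of_finite ℂ hfin,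
      fun i hi => Submodule.subset_span (Or.inr ⟨i, hi, rfl⟩),
      fun y hy => Submodule.subset_span (Or.inl hy)⟩
  refine ⟨V, hVf, hVx, ?_⟩
  have hbn : ∀ l, ‖((stdOrthonormalBasis ℂ V l : V) : H)‖ = 1 :=
    fun l => (stdOrthonormalBasis ℂ V).orthonormal.1 l
  set N : ℕ := Module.finrank ℂ V with hN
  set G : Finset H := (Finset.range (k + 1)).image x ∪
    Finset.univ.image (fun l => ((stdOrthonormalBasis ℂ V l : V) : H)) with hG
  have hGx : ∀ i ≤ k, x i ∈ G := fun i hi => Finset.mem_union_left _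
    (Finset.mem_image_of_mem _ (Finset.mem_range.mpr (Nat.lt_succ_of_le hi)))
  have hGb : ∀ l, ((stdOrthonormalBasis ℂ V l : V) : H) ∈ G := fun l => Finset.mem_union_right _
    (Finset.mem_image_of_mem (fun l => ((stdOrthonormalBasis ℂ V l : V) : H)) (Finset.mem_univ l))
  set η : ℝ := 1 / (8 * ((k : ℝ) + 1) * C * ((N : ℝ) + 1)) with hη
  have hη0 : 0 < η := by positivity
  obtain ⟨r, hr, hrd⟩ := exists_delta_finset hx0 hx (G ×ˢ G) (2 * k) hη0
  refine ⟨r, hr, fun S' hS' i hi j hj s t hs ht => ?_⟩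
  have hd := hrd S' S hS'
  -- the four pieces
  set P := V.starProjection with hP
  have hdecomp : inner ℂ (S'.T (t + s) (x i)) (x j) - inner ℂ (S'.T t (P (S'.T s (x i)))) (x j)
      = inner ℂ ((S'.T (t + s) - S.T (t + s)) (x i)) (x j)
        + inner ℂ (S.T t (S.T s (x i) - P (S.T s (x i)))) (x j)
        - inner ℂ ((S'.T t - S.T t) (P (S.T s (x i)))) (x j)
        + inner ℂ (S'.T t (P (S.T s (x i) - S'.T s (x i)))) (x j) := by
    have h1 : S.T (t + s) (x i) = S.T t (S.T s (x i)) := by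
      rw [S.map_add]; rfl
    simp only [sub_apply, map_sub, inner_sub_left, h1]
    ring
  have hst : t + s ≤ ((2 * k : ℕ) : ℝ≥0) := by
    push_cast
    calc t + s ≤ (k : ℝ≥0) + k := add_le_add ht hs
      _ = 2 * (k : ℝ≥0) := by ring
  have hk2 : (k : ℝ≥0) ≤ ((2 * k : ℕ) : ℝ≥0) := by
    exact_mod_cast (by omega : k ≤ 2 * k)
  have p1 : ‖inner ℂ ((S'.T (t + s) - S.T (t + s)) (x i)) (x j)‖ ≤ η :=
    (hd (x i, x j) (Finset.mk_mem_product (hGx i hi) (hGx j hj)) _ hst).le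
  have p2 : ‖inner ℂ (S.T t (S.T s (x i) - P (S.T s (x i)))) (x j)‖ ≤ 2 * ε₀ * C := by
    have hmem : S.T s (x i) ∈ K := by
      rw [hK]
      simp only [Set.mem_iUnion]
      exact ⟨i, Finset.mem_range.mpr (Nat.lt_succ_of_le hi), s, ⟨zero_le, hs⟩, rfl⟩
    obtain ⟨y, hy, hdy⟩ := Set.mem_iUnion₂.mp (hcov hmem)
    have h1 : ‖S.T s (x i) - P (S.T s (x i))‖ ≤ 2 * ε₀ := by
      have h2 := sub_proj_le V (S.T s (x i)) y (hVF y hy)
      rw [Metric.mem_ball, dist_eq_norm] at hdy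
      linarith
    calc ‖inner ℂ (S.T t (S.T s (x i) - P (S.T s (x i)))) (x j)‖
        ≤ ‖S.T t (S.T s (x i) - P (S.T s (x i)))‖ * ‖x j‖ := norm_inner_le_norm _ _
      _ ≤ (2 * ε₀) * C := by
          gcongr
          · exact (T_apply_le S t _).trans h1
          · exact hxC j hj
  have p3 : ‖inner ℂ ((S'.T t - S.T t) (P (S.T s (x i)))) (x j)‖ ≤ N * (C * η) := by
    rw [hP, proj_eq_sum, map_sum, sum_inner]
    refine (norm_sum_le _ _).trans ?_
    calc ∑ l, ‖inner ℂ ((S'.T t - S.T t) (inner ℂ ((stdOrthonormalBasis ℂ V l : V) : H)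
          (S.T s (x i)) • ((stdOrthonormalBasis ℂ V l : V) : H))) (x j)‖
        ≤ ∑ _l : Fin N, C * η := by
          refine Finset.sum_le_sum fun l _ => ?_
          rw [map_smul, inner_smul_left, norm_mul]
          have h1 : ‖(starRingEnd ℂ) (inner ℂ ((stdOrthonormalBasis ℂ V l : V) : H)
              (S.T s (x i)))‖ ≤ C := by
            rw [RCLike.norm_conj]
            refine (norm_inner_le_norm _ _).trans ?_
            rw [show ‖((stdOrthonormalBasis ℂ V l : V) : H)‖ = 1 from hbn l, one_mul]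
            exact (T_apply_le S s _).trans (hxC i hi)
          have h2 := (hd (((stdOrthonormalBasis ℂ V l : V) : H), x j)
            (Finset.mk_mem_product (hGb l) (hGx j hj)) t (ht.trans hk2)).le
          exact mul_le_mul h1 h2 (norm_nonneg _) hC0.le
      _ = N * (C * η) := by simp
  have p4 : ‖inner ℂ (S'.T t (P (S.T s (x i) - S'.T s (x i)))) (x j)‖ ≤ (N * η) * C := by
    calc ‖inner ℂ (S'.T t (P (S.T s (x i) - S'.T s (x i)))) (x j)‖
        ≤ ‖S'.T t (P (S.T s (x i) - S'.T s (x i)))‖ * ‖x j‖ := norm_inner_le_norm _ _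
      _ ≤ (N * η) * C := by
          gcongr
          · refine (T_apply_le S' t _).trans ((proj_norm_le V _).trans ?_)
            calc ∑ l, ‖inner ℂ ((stdOrthonormalBasis ℂ V l : V) : H)
                  (S.T s (x i) - S'.T s (x i))‖ ≤ ∑ _l : Fin N, η := by
                  refine Finset.sum_le_sum fun l _ => ?_
                  rw [norm_inner_symm]
                  have h2 := (hd (x i, ((stdOrthonormalBasis ℂ V l : V) : H))
                    (Finset.mk_mem_product (hGx i hi) (hGb l)) s (hs.trans hk2)).le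
                  have h3 : S.T s (x i) - S'.T s (x i) = -((S'.T s - S.T s) (x i)) := by
                    simp only [sub_apply]; abel
                  rw [h3, inner_neg_left, norm_neg]
                  exact h2
              _ = N * η := by simp
          · exact hxC j hj
  rw [hdecomp]
  have q1 := norm_add_le (inner ℂ ((S'.T (t + s) - S.T (t + s)) (x i)) (x j)
        + inner ℂ (S.T t (S.T s (x i) - P (S.T s (x i)))) (x j)
        - inner ℂ ((S'.T t - S.T t) (P (S.T s (x i)))) (x j))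
        (inner ℂ (S'.T t (P (S.T s (x i) - S'.T s (x i)))) (x j))
  have q2 := norm_sub_le (inner ℂ ((S'.T (t + s) - S.T (t + s)) (x i)) (x j)
        + inner ℂ (S.T t (S.T s (x i) - P (S.T s (x i)))) (x j))
        (inner ℂ ((S'.T t - S.T t) (P (S.T s (x i)))) (x j))
  have q3 := norm_add_le (inner ℂ ((S'.T (t + s) - S.T (t + s)) (x i)) (x j))
        (inner ℂ (S.T t (S.T s (x i) - P (S.T s (x i)))) (x j))
  have e1 : 2 * ε₀ * C = 1 / (4 * ((k : ℝ) + 1)) := by
    rw [hε₀]; field_simp; norm_num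
  have e2 : η ≤ 1 / (8 * ((k : ℝ) + 1)) := by
    rw [hη]
    refine one_div_le_one_div_of_le (by positivity) ?_
    have h1 : (1 : ℝ) ≤ C * ((N : ℝ) + 1) := by
      have : (0 : ℝ) ≤ N := Nat.cast_nonneg N
      nlinarith
    calc 8 * ((k : ℝ) + 1) = 8 * ((k : ℝ) + 1) * 1 := by ring
      _ ≤ 8 * ((k : ℝ) + 1) * (C * ((N : ℝ) + 1)) := by gcongr
      _ = 8 * ((k : ℝ) + 1) * C * ((N : ℝ) + 1) := by ring
  have e3 : (N : ℝ) * (C * η) ≤ 1 / (8 * ((k : ℝ) + 1)) := by
    have h1 : ((N : ℝ) + 1) * (C * η) = 1 / (8 * ((k : ℝ) + 1)) := by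
      rw [hη]; field_simp
    have h2 : 0 ≤ C * η := by positivity
    linarith
  have e4 : (N * η) * C = N * (C * η) := by ring
  have e5 : 1 / (4 * ((k : ℝ) + 1)) = 1 / ((k : ℝ) + 1) / 4 := by field_simp
  have e6 : 1 / (8 * ((k : ℝ) + 1)) = 1 / ((k : ℝ) + 1) / 8 := by field_simp
  have e7 : 0 < 1 / ((k : ℝ) + 1) := by positivity
  rw [e1, e5] at p2
  rw [e4] at p4
  rw [e6] at e2 e3
  linarith

end Run7.h276.BS
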