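import Pool.Agent.Run7.h276.BS.Wot

/-!
# Contraction semigroups and the metric of weak locally uniform convergence
-/

set_option autoImplicit false
set_option linter.unusedSectionVars false

open Filter Topology
open scoped NNReal

namespace Run7.h276.BS

/-- A contraction `C_0`-semigroup on the Hilbert space `H`. -/
structure ContrSemigroup (H : Type*) [NormedAddCommGroup H] [InnerProductSpace ℂ H] where
  T : ℝ≥0 → H →L[ℂ] H
  map_zero : T 0 = ContinuousLinearMap.id ℂ H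
  map_add : ∀ t s, T (t + s) = (T t).comp (T s)
  cont : ∀ x, Continuous fun t => T t x
  contr : ∀ t, ‖T t‖ ≤ 1

variable {H : Type*} [NormedAddCommGroup H] [InnerProductSpace ℂ H]

/-- `sup_{0 ≤ t ≤ n} |⟨(T(t) - S(t)) u, v⟩|` -/
noncomputable def supDiff (T S : ContrSemigroup H) (n : ℕ) (u v : H) : ℝ :=
  ⨆ t : Set.Icc (0 : ℝ≥0) (n : ℝ≥0), ‖inner ℂ ((T.T t - S.T t) u) v‖

/-- The metric `d(T,S) = ∑_{n,i,j ≥ 1} 2^{-(i+j+n)} sup_{0≤t≤n} |⟨(T(t)-S(t)) x_i, x_j⟩| / (‖x_i‖ ‖x_j‖)`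
(the indices `n, i, j` below start at `0`, whence the `+ 1`). -/
noncomputable def dst (x : ℕ → H) (T S : ContrSemigroup H) : ℝ :=
  ∑' p : ℕ × ℕ × ℕ, (1 / 2 : ℝ) ^ ((p.2.1 + 1) + (p.2.2 + 1) + (p.1 + 1)) *
    (supDiff T S (p.1 + 1) (x p.2.1) (x p.2.2) / (‖x p.2.1‖ * ‖x p.2.2‖))

section basic

variable (T S R : ContrSemigroup H) (n : ℕ) (u v : H)

theorem T_apply_le (t : ℝ≥0) (u : H) : ‖T.T t u‖ ≤ ‖u‖ := by
  simpa using (T.T t).le_of_opNorm_le (T.contr t) u

theorem diff_le (t : ℝ≥0) : ‖inner ℂ ((T.T t - S.T t) u) v‖ ≤ 2 * (‖u‖ * ‖v‖) := by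
  refine (norm_inner_le_norm _ _).trans ?_
  have h1 : ‖(T.T t - S.T t) u‖ ≤ 2 * ‖u‖ := by
    rw [sub_apply]
    refine (norm_sub_le _ _).trans ?_
    have := T_apply_le T t u
    have := T_apply_le S t u
    linarith
  calc ‖(T.T t - S.T t) u‖ * ‖v‖ ≤ (2 * ‖u‖) * ‖v‖ := by gcongr
    _ = 2 * (‖u‖ * ‖v‖) := by ring

theorem supDiff_bdd : BddAbove (Set.range fun t : Set.Icc (0 : ℝ≥0) (n : ℝ≥0) =>
    ‖inner ℂ ((T.T t - S.T t) u) v‖) := by
  refine ⟨2 * (‖u‖ * ‖v‖), ?_⟩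
  rintro _ ⟨t, rfl⟩
  exact diff_le T S u v t

theorem le_supDiff {t : ℝ≥0} (ht : t ≤ n) :
    ‖inner ℂ ((T.T t - S.T t) u) v‖ ≤ supDiff T S n u v :=
  le_ciSup (supDiff_bdd T S n u v) (⟨t, zero_le, ht⟩ : Set.Icc (0 : ℝ≥0) (n : ℝ≥0))

theorem supDiff_le {C : ℝ} (h : ∀ t : ℝ≥0, t ≤ n → ‖inner ℂ ((T.T t - S.T t) u) v‖ ≤ C) :
    supDiff T S n u v ≤ C := by
  have : Nonempty (Set.Icc (0 : ℝ≥0) (n : ℝ≥0)) := ⟨⟨0, le_rfl, zero_le⟩⟩
  exact ciSup_le fun t => h t t.2.2

theorem supDiff_nonneg : 0 ≤ supDiff T S n u v :=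
  (norm_nonneg _).trans (le_supDiff T S n u v (zero_le))

theorem supDiff_le_two : supDiff T S n u v ≤ 2 * (‖u‖ * ‖v‖) :=
  supDiff_le T S n u v fun t _ => diff_le T S u v t

theorem supDiff_comm : supDiff T S n u v = supDiff S T n u v := by
  unfold supDiff
  congr 1
  funext t
  have : (T.T t - S.T t) u = -((S.T t - T.T t) u) := by
    simp only [sub_apply]; abel
  rw [this, inner_neg_left, norm_neg]

theorem supDiff_self : supDiff T T n u v = 0 := by
  refine le_antisymm (supDiff_le T T n u v fun t _ => ?_) (supDiff_nonneg T T n u v)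
  simp

theorem supDiff_triangle :
    supDiff T R n u v ≤ supDiff T S n u v + supDiff S R n u v := by
  refine supDiff_le T R n u v fun t ht => ?_
  have h1 : (T.T t - R.T t) u = (T.T t - S.T t) u + (S.T t - R.T t) u := by
    simp only [sub_apply]; abel
  rw [h1, inner_add_left]
  exact (norm_add_le _ _).trans
    (add_le_add (le_supDiff T S n u v ht) (le_supDiff S R n u v ht))

end basic

section metric

variable (x : ℕ → H) (T S R : ContrSemigroup H)

/-- the weights -/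
noncomputable def wgt (p : ℕ × ℕ × ℕ) : ℝ :=
  (1 / 2 : ℝ) ^ ((p.2.1 + 1) + (p.2.2 + 1) + (p.1 + 1))

theorem wgt_pos (p : ℕ × ℕ × ℕ) : 0 < wgt p := by unfold wgt; positivity

theorem wgt_summable : Summable wgt := by
  have h1 : Summable (fun n : ℕ => (1 / 2 : ℝ) ^ (n + 1)) := by
    simpa [pow_succ] using (summable_geometric_two).mul_right (1 / 2 : ℝ)
  have h2 := (h1.mul_of_nonneg (h1.mul_of_nonneg h1 (fun n => by positivity)
    (fun n => by positivity)) (fun n => by positivity) (fun n => by positivity))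
  refine h2.congr fun p => ?_
  unfold wgt
  rw [← pow_add, ← pow_add]
  congr 1
  ring

/-- the quotient in the metric -/
noncomputable def quo (p : ℕ × ℕ × ℕ) : ℝ :=
  supDiff T S (p.1 + 1) (x p.2.1) (x p.2.2) / (‖x p.2.1‖ * ‖x p.2.2‖)

theorem dst_eq : dst x T S = ∑' p, wgt p * quo x T S p := rfl

theorem quo_nonneg (p : ℕ × ℕ × ℕ) : 0 ≤ quo x T S p :=
  div_nonneg (supDiff_nonneg _ _ _ _ _) (by positivity)

theorem quo_le_two (p : ℕ × ℕ × ℕ) : quo x T S p ≤ 2 := by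
  unfold quo
  rcases (by positivity : 0 ≤ ‖x p.2.1‖ * ‖x p.2.2‖).eq_or_lt with h | h
  · rw [← h]; simp
  · rw [div_le_iff₀ h]
    exact supDiff_le_two _ _ _ _ _

theorem term_summable : Summable fun p => wgt p * quo x T S p := by
  refine Summable.of_nonneg_of_le (fun p => mul_nonneg (wgt_pos p).le (quo_nonneg x T S p))
    (fun p => ?_) (wgt_summable.mul_right 2)
  exact mul_le_mul_of_nonneg_left (quo_le_two x T S p) (wgt_pos p).le

theorem dst_nonneg : 0 ≤ dst x T S :=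
  tsum_nonneg fun p => mul_nonneg (wgt_pos p).le (quo_nonneg x T S p)

theorem dst_comm : dst x T S = dst x S T := by
  rw [dst_eq, dst_eq]
  congr 1
  funext p
  unfold quo
  rw [supDiff_comm]

theorem dst_self : dst x T T = 0 := by
  rw [dst_eq]
  have : ∀ p, wgt p * quo x T T p = 0 := by
    intro p
    unfold quo
    rw [supDiff_self, zero_div, mul_zero]
  simp [this]

theorem dst_triangle : dst x T R ≤ dst x T S + dst x S R := by
  rw [dst_eq, dst_eq, dst_eq, ← (term_summable x T S).tsum_add (term_summable x S R)]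
  refine (term_summable x T R).tsum_le_tsum (fun p => ?_)
    ((term_summable x T S).add (term_summable x S R))
  rw [← mul_add]
  refine mul_le_mul_of_nonneg_left ?_ (wgt_pos p).le
  unfold quo
  rw [← add_div]
  gcongr
  exact supDiff_triangle _ _ _ _ _ _

theorem supDiff_le_dst (hx0 : ∀ i, x i ≠ 0) (n i j : ℕ) :
    supDiff T S (n + 1) (x i) (x j) ≤ ‖x i‖ * ‖x j‖ / wgt (n, i, j) * dst x T S := by
  have h1 : wgt (n, i, j) * quo x T S (n, i, j) ≤ dst x T S :=
    (term_summable x T S).le_tsum (n, i, j)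
      fun p _ => mul_nonneg (wgt_pos p).le (quo_nonneg x T S p)
  have hw := wgt_pos (n, i, j)
  have h2 : 0 < ‖x i‖ * ‖x j‖ := mul_pos (norm_pos_iff.mpr (hx0 i)) (norm_pos_iff.mpr (hx0 j))
  have h3 : quo x T S (n, i, j) * (‖x i‖ * ‖x j‖) = supDiff T S (n + 1) (x i) (x j) := by
    unfold quo
    exact div_mul_cancel₀ _ h2.ne'
  rw [← h3, div_mul_eq_mul_div, le_div_iff₀ hw]
  calc quo x T S (n, i, j) * (‖x i‖ * ‖x j‖) * wgt (n, i, j)
      = (‖x i‖ * ‖x j‖) * (wgt (n, i, j) * quo x T S (n, i, j)) := by ring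
    _ ≤ ‖x i‖ * ‖x j‖ * dst x T S := by gcongr

/-- uniform control of all weak matrix elements by the metric. -/
theorem exists_delta (hx0 : ∀ i, x i ≠ 0) (hx : DenseRange x) (u v : H) (n : ℕ) {ε : ℝ}
    (hε : 0 < ε) : ∃ δ : ℝ, 0 < δ ∧ ∀ T S : ContrSemigroup H, dst x T S < δ →
      ∀ t : ℝ≥0, t ≤ n → ‖inner ℂ ((T.T t - S.T t) u) v‖ < ε := by
  set C : ℝ := ‖u‖ + ‖v‖ + 1 with hC
  have hC0 : 0 < C := by positivity
  obtain ⟨i, hi⟩ := hx.exists_dist_lt u (ε := min 1 (ε / (8 * C))) (by positivity)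
  obtain ⟨j, hj⟩ := hx.exists_dist_lt v (ε := min 1 (ε / (8 * C))) (by positivity)
  rw [dist_eq_norm] at hi hj
  have hi1 : ‖u - x i‖ < 1 := hi.trans_le (min_le_left _ _)
  have hi2 : ‖u - x i‖ < ε / (8 * C) := hi.trans_le (min_le_right _ _)
  have hj2 : ‖v - x j‖ < ε / (8 * C) := hj.trans_le (min_le_right _ _)
  have hxi : ‖x i‖ ≤ C := by
    have := norm_sub_norm_le (x i) u
    rw [norm_sub_rev] at this
    have h0 : 0 ≤ ‖v‖ := norm_nonneg _
    linarith
  have h3 : 2 * (‖u - x i‖ * ‖v‖ + ‖x i‖ * ‖v - x j‖) ≤ ε / 2 := by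
    have hw : ‖v‖ ≤ C := by have := norm_nonneg u; linarith
    have a1 : ‖u - x i‖ * ‖v‖ ≤ ε / (8 * C) * C := by gcongr
    have a2 : ‖x i‖ * ‖v - x j‖ ≤ C * (ε / (8 * C)) := by gcongr
    have a3 : ε / (8 * C) * C = ε / 8 := by field_simp
    have a4 : C * (ε / (8 * C)) = ε / 8 := by field_simp
    linarith
  have hw := wgt_pos (n, i, j)
  have h4 : 0 < ‖x i‖ * ‖x j‖ := mul_pos (norm_pos_iff.mpr (hx0 i)) (norm_pos_iff.mpr (hx0 j))
  refine ⟨ε / 2 / (‖x i‖ * ‖x j‖ / wgt (n, i, j)), by positivity, fun T S hTS t ht => ?_⟩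
  have h5 := supDiff_le_dst x T S hx0 n i j
  have h6 : ‖x i‖ * ‖x j‖ / wgt (n, i, j) * dst x T S < ε / 2 := by
    rw [lt_div_iff₀ (by positivity)] at hTS
    linarith
  have h7 : ‖inner ℂ ((T.T t - S.T t) (x i)) (x j)‖ ≤ supDiff T S (n + 1) (x i) (x j) :=
    le_supDiff T S (n + 1) (x i) (x j) (ht.trans (by push_cast; exact le_self_add))
  have h8 := diff_bound (T.contr t) (S.contr t) u v (x i) (x j)
  linarith

/-- a sequence converges for the metric if all the suprema converge. -/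
theorem tendsto_dst (y : ℕ → ContrSemigroup H)
    (h : ∀ n i j, Tendsto (fun m => supDiff (y m) S (n + 1) (x i) (x j)) atTop (𝓝 0)) :
    Tendsto (fun m => dst x (y m) S) atTop (𝓝 0) := by
  have h1 : Tendsto (fun m => ∑' p, wgt p * quo x (y m) S p) atTop
      (𝓝 (∑' _p : ℕ × ℕ × ℕ, (0 : ℝ))) := by
    refine tendsto_tsum_of_dominated_convergence (bound := fun p => wgt p * 2)
      (wgt_summable.mul_right 2) (fun p => ?_) (Eventually.of_forall fun m p => ?_)
    · have h2 := ((h p.1 p.2.1 p.2.2).div_const (‖x p.2.1‖ * ‖x p.2.2‖)).const_mul (wgt p)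
      simpa [quo] using h2
    · rw [Real.norm_of_nonneg (mul_nonneg (wgt_pos p).le (quo_nonneg x _ _ p))]
      exact mul_le_mul_of_nonneg_left (quo_le_two x _ _ p) (wgt_pos p).le
  simpa [dst_eq] using h1

end metric

end Run7.h276.BS
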