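import Pool.Agent.Run7.h276.BS.Approx

/-!
# Limits of Cauchy sequences which lie in the covers
-/

set_option autoImplicit false
set_option linter.unusedSectionVars false

open Filter Topology
open scoped NNReal

namespace Run7.h276.BS

variable {H : Type*} [NormedAddCommGroup H] [InnerProductSpace ℂ H] [CompleteSpace H]

theorem rprop_limit {x : ℕ → H} (y : ℕ → ContrSemigroup H) (A : ℝ≥0 → H →L[ℂ] H)
    (hA : ∀ t v w, Tendsto (fun m => inner ℂ ((y m).T t v) w) atTop (𝓝 (inner ℂ (A t v) w)))
    (V : Submodule ℂ H) [FiniteDimensional ℂ V] (k : ℕ)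
    (h : ∀ᶠ m in atTop, RProp x (y m).T V k) : RProp x A V k := by
  intro i hi j hj s t hs ht
  set P := V.starProjection with hP
  -- the projected vectors converge in norm
  have h1 : Tendsto (fun m => ‖P ((y m).T s (x i) - A s (x i))‖) atTop (𝓝 0) := by
    have h2 : Tendsto (fun m => ∑ l, ‖inner ℂ ((stdOrthonormalBasis ℂ V l : V) : H)
        ((y m).T s (x i) - A s (x i))‖) atTop (𝓝 0) := by
      have h3 : ∀ l, Tendsto (fun m => ‖inner ℂ ((stdOrthonormalBasis ℂ V l : V) : H)
          ((y m).T s (x i) - A s (x i))‖) atTop (𝓝 0) := by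
        intro l
        have h4 := (hA s (x i) ((stdOrthonormalBasis ℂ V l : V) : H)).sub_const
          (inner ℂ (A s (x i)) ((stdOrthonormalBasis ℂ V l : V) : H))
        rw [sub_self] at h4
        have h5 := h4.norm
        rw [norm_zero] at h5
        refine h5.congr fun m => ?_
        rw [norm_inner_symm, inner_sub_left]
      simpa using tendsto_finsetSum Finset.univ fun l _ => h3 l
    exact squeeze_zero (fun m => norm_nonneg _) (fun m => proj_norm_le V _) h2
  have h2 : Tendsto (fun m => inner ℂ ((y m).T t (P ((y m).T s (x i)))) (x j)) atTop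
      (𝓝 (inner ℂ (A t (P (A s (x i)))) (x j))) := by
    have h3 := hA t (P (A s (x i))) (x j)
    have h4 : Tendsto (fun m => inner ℂ ((y m).T t (P ((y m).T s (x i) - A s (x i)))) (x j))
        atTop (𝓝 0) := by
      rw [tendsto_zero_iff_norm_tendsto_zero]
      have h5 := h1.mul_const ‖x j‖
      rw [zero_mul] at h5
      refine squeeze_zero (fun m => norm_nonneg _) (fun m => ?_) h5
      refine (norm_inner_le_norm _ _).trans ?_
      gcongr
      exact T_apply_le (y m) t _
    have h6 := h3.add h4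
    rw [add_zero] at h6
    refine h6.congr fun m => ?_
    rw [← inner_add_left, ← map_add, ← map_add]
    congr 3
    abel
  have h3 := ((hA (t + s) (x i) (x j)).sub h2).norm
  exact le_of_tendsto h3 (h.mono fun m hm => hm i hi j hj s t hs ht)

/-- the completeness statement. -/
theorem exists_limit {x : ℕ → H} (hx0 : ∀ i, x i ≠ 0) (hx : DenseRange x)
    (y : ℕ → ContrSemigroup H)
    (hcau : ∀ ε : ℝ, 0 < ε → ∃ N, ∀ m ≥ N, ∀ l ≥ N, dst x (y m) (y l) < ε)
    (hcov : ∀ k : ℕ, ∃ (V : Submodule ℂ H) (_ : FiniteDimensional ℂ V), (∀ i ≤ k, x i ∈ V) ∧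
      ∀ᶠ m in atTop, RProp x (y m).T V k) :
    ∃ z : ContrSemigroup H, Tendsto (fun m => dst x (y m) z) atTop (𝓝 0) := by
  -- uniform Cauchy property
  have hunif : ∀ (u v : H) (n : ℕ) (ε : ℝ), 0 < ε → ∃ N, ∀ m ≥ N, ∀ l ≥ N, ∀ t : ℝ≥0, t ≤ n →
      ‖inner ℂ (((y m).T t - (y l).T t) u) v‖ < ε := by
    intro u v n ε hε
    obtain ⟨δ, hδ, hd⟩ := exists_delta x hx0 hx u v n hε
    obtain ⟨N, hN⟩ := hcau δ hδ
    exact ⟨N, fun m hm l hl t ht => hd _ _ (hN m hm l hl) t ht⟩
  -- weak limits
  have hex : ∀ t : ℝ≥0, ∃ B : H →L[ℂ] H, ‖B‖ ≤ 1 ∧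
      ∀ v w, Tendsto (fun m => inner ℂ ((y m).T t v) w) atTop (𝓝 (inner ℂ (B v) w)) := by
    intro t
    refine exists_wot_limit hx (fun m => (y m).T t) (fun m => (y m).contr t) fun i j => ?_
    rw [Metric.cauchySeq_iff]
    intro ε hε
    obtain ⟨n, hn⟩ := exists_nat_ge t
    obtain ⟨N, hN⟩ := hunif (x i) (x j) n ε hε
    refine ⟨N, fun m hm l hl => ?_⟩
    have h1 := hN m hm l hl t hn
    rw [dist_eq_norm]
    simpa only [sub_apply, inner_sub_left] using h1
  choose A hA1 hA2 using hex
  have hAle : ∀ t u, ‖A t u‖ ≤ ‖u‖ := fun t u => by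
    simpa using (A t).le_of_opNorm_le (hA1 t) u
  -- uniform convergence to the limit
  have hlim : ∀ (u v : H) (n : ℕ) (ε : ℝ), 0 < ε → ∃ N, ∀ m ≥ N, ∀ t : ℝ≥0, t ≤ n →
      ‖inner ℂ (((y m).T t - A t) u) v‖ ≤ ε := by
    intro u v n ε hε
    obtain ⟨N, hN⟩ := hunif u v n ε hε
    refine ⟨N, fun m hm t ht => ?_⟩
    have h1 : Tendsto (fun l => ‖inner ℂ (((y m).T t - (y l).T t) u) v‖) atTop
        (𝓝 ‖inner ℂ (((y m).T t - A t) u) v‖) := by
      have h2 := ((hA2 t u v).const_sub (inner ℂ ((y m).T t u) v)).norm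
      simpa only [sub_apply, inner_sub_left] using h2
    exact le_of_tendsto h1 ((eventually_ge_atTop N).mono fun l hl => (hN m hm l hl t ht).le)
  -- value at zero
  have hzero : A 0 = ContinuousLinearMap.id ℂ H := by
    ext v
    refine ext_inner_right ℂ fun w => ?_
    refine tendsto_nhds_unique (hA2 0 v w) ?_
    have : ∀ m, inner ℂ ((y m).T 0 v) w = inner ℂ v w := fun m => by
      rw [(y m).map_zero]; rfl
    simp only [this]
    exact tendsto_const_nhds
  -- the semigroup law
  have hadd : ∀ t s, A (t + s) = (A t).comp (A s) := by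
    intro t s
    have key : ∀ i j, inner ℂ (A (t + s) (x i)) (x j) = inner ℂ (A t (A s (x i))) (x j) := by
      intro i j
      rw [← sub_eq_zero, ← norm_le_zero_iff]
      refine le_of_forall_pos_le_add fun ε hε => ?_
      set C : ℝ := ‖x j‖ + 1 with hC
      have hC0 : 0 < C := by positivity
      obtain ⟨l, hl⟩ := hx.exists_dist_lt (A s (x i)) (ε := ε / (4 * C)) (by positivity)
      rw [dist_eq_norm] at hl
      obtain ⟨n1, hn1⟩ := exists_nat_ge s
      obtain ⟨n2, hn2⟩ := exists_nat_ge t
      obtain ⟨n3, hn3⟩ := exists_nat_one_div_lt (by positivity : 0 < ε / 2)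
      set k : ℕ := i + j + l + n1 + n2 + n3 with hk
      obtain ⟨V, hVf, hVx, hV⟩ := hcov k
      have hR := rprop_limit y A hA2 V k hV i (by omega) j (by omega) s t
        (hn1.trans (by exact_mod_cast (by omega : n1 ≤ k)))
        (hn2.trans (by exact_mod_cast (by omega : n2 ≤ k)))
      have hk3 : 1 / ((k : ℝ) + 1) ≤ ε / 2 := by
        refine le_trans ?_ hn3.le
        refine one_div_le_one_div_of_le (by positivity) ?_
        have : (n3 : ℝ) ≤ k := by exact_mod_cast (by omega : n3 ≤ k)
        linarith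
      have h1 : ‖A s (x i) - V.starProjection (A s (x i))‖ ≤ 2 * (ε / (4 * C)) := by
        refine (sub_proj_le V (A s (x i)) (x l) (hVx l (by omega))).trans ?_
        gcongr
      have h2 : ‖inner ℂ (A t (A s (x i) - V.starProjection (A s (x i)))) (x j)‖ ≤ ε / 2 := by
        calc ‖inner ℂ (A t (A s (x i) - V.starProjection (A s (x i)))) (x j)‖
            ≤ ‖A t (A s (x i) - V.starProjection (A s (x i)))‖ * ‖x j‖ := norm_inner_le_norm _ _
          _ ≤ (2 * (ε / (4 * C))) * C := by
              gcongr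
              · exact (hAle t _).trans h1
              · linarith
          _ = ε / 2 := by field_simp; norm_num
      have h3 : inner ℂ (A (t + s) (x i)) (x j) - inner ℂ (A t (A s (x i))) (x j)
          = (inner ℂ (A (t + s) (x i)) (x j)
              - inner ℂ (A t (V.starProjection (A s (x i)))) (x j))
            - inner ℂ (A t (A s (x i) - V.starProjection (A s (x i)))) (x j) := by
        rw [map_sub, inner_sub_left]; ring
      rw [h3, zero_add]
      refine (norm_sub_le _ _).trans ?_
      linarith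
    have h1 : ∀ i, A (t + s) (x i) = A t (A s (x i)) := by
      intro i
      refine ext_inner_right ℂ fun w => ?_
      have h2 := hx.equalizer (g := fun w => inner ℂ (A (t + s) (x i)) w)
        (h := fun w => inner ℂ (A t (A s (x i))) w)
        (continuous_const.inner continuous_id) (continuous_const.inner continuous_id)
        (funext fun j => key i j)
      exact congrFun h2 w
    ext v
    have h2 := hx.equalizer (g := fun v => A (t + s) v) (h := fun v => A t (A s v))
      (A (t + s)).continuous ((A t).continuous.comp (A s).continuous) (funext h1)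
    exact congrFun h2 v
  -- strong continuity at zero
  have hc0 : ∀ v, Tendsto (fun t => A t v) (𝓝 0) (𝓝 v) := by
    have hbase : ∀ i, Tendsto (fun t => A t (x i)) (𝓝 0) (𝓝 (x i)) := by
      intro i
      rw [Metric.tendsto_nhds]
      intro ε hε
      -- `Re ⟨A t x, x⟩` is close to `‖x‖²`
      obtain ⟨N, hN⟩ := hlim (x i) (x i) 1 (ε ^ 2 / 8) (by positivity)
      have hxi : 0 < ‖x i‖ := norm_pos_iff.mpr (hx0 i)
      have h1 : Tendsto (fun t => (y N).T t (x i)) (𝓝 0) (𝓝 (x i)) := by
        have := ((y N).cont (x i)).tendsto 0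
        rwa [(y N).map_zero] at this
      have h2 := (Metric.tendsto_nhds.mp h1) (ε ^ 2 / 8 / ‖x i‖) (by positivity)
      have h3 : ∀ᶠ t : ℝ≥0 in 𝓝 0, t < 1 := gt_mem_nhds zero_lt_one
      filter_upwards [h2, h3] with t ht2 ht3
      have h4 := hN N le_rfl t (by simpa using ht3.le)
      rw [dist_eq_norm] at ht2 ⊢
      have h5 : ‖inner ℂ ((y N).T t (x i) - x i) (x i)‖ ≤ ε ^ 2 / 8 := by
        refine (norm_inner_le_norm _ _).trans ?_
        rw [lt_div_iff₀ hxi] at ht2
        exact ht2.le
      have h6 : inner ℂ (A t (x i)) (x i) = inner ℂ (x i) (x i)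
          + inner ℂ ((y N).T t (x i) - x i) (x i) - inner ℂ (((y N).T t - A t) (x i)) (x i) := by
        simp only [sub_apply, inner_sub_left]; ring
      have h7 : ‖x i‖ ^ 2 - ε ^ 2 / 4 ≤ (inner ℂ (A t (x i)) (x i)).re := by
        rw [h6]
        simp only [Complex.add_re, Complex.sub_re]
        have a1 : (inner ℂ (x i) (x i)).re = ‖x i‖ ^ 2 := by
          rw [inner_self_eq_norm_sq_to_K]
          norm_cast
        have a2 := (abs_le.mp ((Complex.abs_re_le_norm _).trans h5)).1
        have a3 := (abs_le.mp ((Complex.abs_re_le_norm _).trans h4)).2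
        rw [a1]
        linarith
      have h8 : ‖A t (x i) - x i‖ ^ 2 ≤ ε ^ 2 / 2 := by
        have h9 := @norm_sub_sq ℂ _ _ _ _ (A t (x i)) (x i)
        have h10 : RCLike.re (inner ℂ (A t (x i)) (x i)) = (inner ℂ (A t (x i)) (x i)).re := rfl
        rw [h10] at h9
        have h11 : ‖A t (x i)‖ ^ 2 ≤ ‖x i‖ ^ 2 := by
          have := hAle t (x i)
          gcongr
        rw [h9]
        linarith
      nlinarith [norm_nonneg (A t (x i) - x i)]
    intro v
    rw [Metric.tendsto_nhds]
    intro ε hε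
    obtain ⟨i, hi⟩ := hx.exists_dist_lt v (ε := ε / 3) (by positivity)
    rw [dist_eq_norm] at hi
    filter_upwards [(Metric.tendsto_nhds.mp (hbase i)) (ε / 3) (by positivity)] with t ht
    rw [dist_eq_norm] at ht ⊢
    have h1 : A t v - v = A t (v - x i) + (A t (x i) - x i) - (v - x i) := by
      rw [map_sub]; abel
    rw [h1]
    have h2 := hAle t (v - x i)
    have h3 := norm_sub_le (A t (v - x i) + (A t (x i) - x i)) (v - x i)
    have h4 := norm_add_le (A t (v - x i)) (A t (x i) - x i)
    linarith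
  -- strong continuity
  have hcont : ∀ v, Continuous fun t => A t v := by
    intro v
    have hmod : ∀ s t : ℝ≥0, s ≤ t → ‖A t v - A s v‖ ≤ ‖A (t - s) v - v‖ := by
      intro s t hst
      have h1 : t = s + (t - s) := (add_tsub_cancel_of_le hst).symm
      have h2 : A t v = A s (A (t - s) v) := by
        conv_lhs => rw [h1]
        rw [hadd]; rfl
      rw [h2, ← map_sub]
      exact hAle s _
    rw [Metric.continuous_iff]
    intro t ε hε
    obtain ⟨δ, hδ, hd⟩ := Metric.tendsto_nhds_nhds.mp (hc0 v) ε hε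
    refine ⟨δ, hδ, fun s hs => ?_⟩
    rcases le_total s t with hst | hst
    · have h1 := hmod s t hst
      have h2 : dist (t - s) 0 < δ := by
        rw [NNReal.dist_eq] at hs ⊢
        rw [NNReal.coe_sub hst, NNReal.coe_zero, sub_zero]
        rw [abs_sub_comm] at hs
        exact hs
      have h3 := hd h2
      rw [dist_eq_norm] at h3 ⊢
      rw [norm_sub_rev]
      exact h1.trans_lt h3
    · have h1 := hmod t s hst
      have h2 : dist (s - t) 0 < δ := by
        rw [NNReal.dist_eq] at hs ⊢
        rw [NNReal.coe_sub hst, NNReal.coe_zero, sub_zero]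
        exact hs
      have h3 := hd h2
      rw [dist_eq_norm] at h3 ⊢
      exact h1.trans_lt h3
  refine ⟨⟨A, hzero, hadd, hcont, hA1⟩, ?_⟩
  refine tendsto_dst x _ y fun n i j => ?_
  rw [Metric.tendsto_atTop]
  intro ε hε
  obtain ⟨N, hN⟩ := hlim (x i) (x j) (n + 1) (ε / 2) (by positivity)
  refine ⟨N, fun m hm => ?_⟩
  rw [Real.dist_0_eq_abs, abs_of_nonneg (supDiff_nonneg _ _ _ _ _)]
  have h1 := supDiff_le (y m) ⟨A, hzero, hadd, hcont, hA1⟩ (n + 1) (x i) (x j)
    (C := ε / 2) (fun t ht => hN m hm t ht)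
  linarith

end Run7.h276.BS
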