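import Mathlib

/-!
# A Baire criterion (countably many open covers)
-/

set_option autoImplicit false

open Filter Topology

namespace Run7.h276.BS

theorem baire_of_covers {M : Type*} (d : M → M → ℝ) (h0 : ∀ a, d a a = 0)
    (hs : ∀ a b, d a b = d b a) (ht : ∀ a b c, d a c ≤ d a b + d b c)
    (r : ℕ → M → ℝ) (hr : ∀ k a, 0 < r k a)
    (hcomp : ∀ y : ℕ → M, (∀ ε : ℝ, 0 < ε → ∃ N, ∀ m ≥ N, ∀ l ≥ N, d (y m) (y l) < ε) →
      (∀ k, ∃ c, ∃ N, ∀ m ≥ N, d (y m) c < r k c) →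
      ∃ z, Tendsto (fun m => d (y m) z) atTop (𝓝 0))
    (U : ℕ → Set M) (hU : ∀ k, ∀ a ∈ U k, ∃ ε : ℝ, 0 < ε ∧ ∀ b, d b a < ε → b ∈ U k)
    (hD : ∀ k, ∀ a, ∀ ε : ℝ, 0 < ε → ∃ b ∈ U k, d b a < ε) (a : M) {ε : ℝ} (hε : 0 < ε) :
    ∃ b, (∀ k, b ∈ U k) ∧ d b a < ε := by
  -- one step
  have step : ∀ (k : ℕ) (q : {p : M × ℝ // 0 < p.2}), ∃ q' : {p : M × ℝ // 0 < p.2},
      d q'.1.1 q.1.1 < q.1.2 / 2 ∧ q'.1.2 ≤ q.1.2 / 4 ∧
      (∀ b, d b q'.1.1 < 2 * q'.1.2 → b ∈ U k) ∧ 2 * q'.1.2 ≤ r k q'.1.1 := by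
    rintro k ⟨⟨c, ρ⟩, hρ⟩
    have hρ : 0 < ρ := hρ
    obtain ⟨c', hc', hcc⟩ := hD k c (ρ / 2) (by positivity)
    obtain ⟨η, hη, hball⟩ := hU k c' hc'
    refine ⟨⟨⟨c', min (η / 2) (min (r k c' / 2) (ρ / 4))⟩, ?_⟩, hcc, ?_, ?_, ?_⟩
    · have := hr k c'
      show 0 < min (η / 2) (min (r k c' / 2) (ρ / 4))
      positivity
    · exact (min_le_right _ _).trans (min_le_right _ _)
    · intro b hb
      refine hball b (hb.trans_le ?_)
      have := min_le_left (η / 2) (min (r k c' / 2) (ρ / 4))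
      show 2 * min (η / 2) (min (r k c' / 2) (ρ / 4)) ≤ η
      linarith
    · have := (min_le_right (η / 2) (min (r k c' / 2) (ρ / 4))).trans (min_le_left _ _)
      show 2 * min (η / 2) (min (r k c' / 2) (ρ / 4)) ≤ r k c'
      linarith
  choose next hn1 hn2 hn3 hn4 using step
  set q : ℕ → {p : M × ℝ // 0 < p.2} := fun k =>
    Nat.rec (⟨⟨a, ε / 2⟩, by show 0 < ε / 2; positivity⟩ : {p : M × ℝ // 0 < p.2})
      (fun k q => next k q) k with hq
  have hq0 : q 0 = ⟨⟨a, ε / 2⟩, by show 0 < ε / 2; positivity⟩ := rfl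
  have hqs : ∀ k, q (k + 1) = next k (q k) := fun k => rfl
  have hpos : ∀ k, 0 < (q k).1.2 := fun k => (q k).2
  have b1 : ∀ k, d (q (k + 1)).1.1 (q k).1.1 < (q k).1.2 / 2 := fun k => by
    rw [hqs]; exact hn1 k (q k)
  have b2 : ∀ k, (q (k + 1)).1.2 ≤ (q k).1.2 / 4 := fun k => by
    rw [hqs]; exact hn2 k (q k)
  have b3 : ∀ k, ∀ b, d b (q (k + 1)).1.1 < 2 * (q (k + 1)).1.2 → b ∈ U k := fun k => by
    rw [hqs]; exact hn3 k (q k)
  have b4 : ∀ k, 2 * (q (k + 1)).1.2 ≤ r k (q (k + 1)).1.1 := fun k => by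
    rw [hqs]; exact hn4 k (q k)
  -- distances
  have hdist : ∀ k j, d (q (k + j)).1.1 (q k).1.1 ≤ (q k).1.2 - (q (k + j)).1.2 := by
    intro k j
    induction j with
    | zero => simp [h0]
    | succ j ih =>
      show d (q (k + j + 1)).1.1 (q k).1.1 ≤ (q k).1.2 - (q (k + j + 1)).1.2
      have h1 := ht (q (k + j + 1)).1.1 (q (k + j)).1.1 (q k).1.1
      have h2 := b1 (k + j)
      have h3 := b2 (k + j)
      have h4 := hpos (k + j)
      linarith
  have hlt : ∀ k m, k ≤ m → d (q m).1.1 (q k).1.1 < (q k).1.2 := by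
    intro k m hkm
    obtain ⟨j, rfl⟩ := Nat.exists_eq_add_of_le hkm
    have := hdist k j
    have := hpos (k + j)
    linarith
  have hsmall : ∀ k, (q k).1.2 ≤ ε / 2 * (1 / 4) ^ k := by
    intro k
    induction k with
    | zero => simp [hq0]
    | succ k ih =>
      have := b2 k
      rw [pow_succ]
      linarith
  have hlim0 : Tendsto (fun k : ℕ => ε / 2 * (1 / 4 : ℝ) ^ k) atTop (𝓝 0) := by
    have := (tendsto_pow_atTop_nhds_zero_of_lt_one (r := (1 / 4 : ℝ)) (by norm_num)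
      (by norm_num)).const_mul (ε / 2)
    simpa using this
  obtain ⟨z, hz⟩ := hcomp (fun k => (q k).1.1) (by
    intro η hη
    obtain ⟨N, hN⟩ := (hlim0.eventually (gt_mem_nhds (by positivity : 0 < η / 2))).exists
    have hN' : (q N).1.2 < η / 2 := (hsmall N).trans_lt hN
    refine ⟨N, fun m hm l hl => ?_⟩
    have h1 := hlt N m hm
    have h2 := hlt N l hl
    have h3 := ht (q m).1.1 (q N).1.1 (q l).1.1
    rw [hs (q N).1.1 (q l).1.1] at h3
    linarith) (by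
    intro k
    refine ⟨(q (k + 1)).1.1, k + 1, fun m hm => ?_⟩
    have h1 := hlt (k + 1) m hm
    have h2 := b4 k
    have h3 := hpos (k + 1)
    linarith)
  have hzle : ∀ k, d z (q k).1.1 ≤ (q k).1.2 := by
    intro k
    refine le_of_forall_pos_le_add fun η hη => ?_
    obtain ⟨m, hm1, hm2⟩ := ((hz.eventually (gt_mem_nhds hη)).and (eventually_ge_atTop k)).exists
    have h1 := hlt k m hm2
    have h2 := ht z (q m).1.1 (q k).1.1
    rw [hs z (q m).1.1] at h2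
    linarith
  refine ⟨z, fun k => b3 k z ?_, ?_⟩
  · have := hzle (k + 1)
    have := hpos (k + 1)
    linarith
  · have := hzle 0
    rw [hq0] at this
    simp only at this
    linarith

end Run7.h276.BS
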