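import Mathlib

/-!
# Weak limits of contractions, finite rank approximation of products
-/

set_option autoImplicit false
set_option linter.unusedSectionVars false

open Filter Topology
open scoped NNReal

namespace Run7.h276.BS

variable {H : Type*} [NormedAddCommGroup H] [InnerProductSpace ℂ H]

/-- difference of two values of a contraction form. -/
theorem form_diff {A : H →L[ℂ] H} (hA : ‖A‖ ≤ 1) (v w v' w' : H) :
    ‖inner ℂ (A v) w - inner ℂ (A v') w'‖ ≤ ‖v - v'‖ * ‖w‖ + ‖v'‖ * ‖w - w'‖ := by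
  have h1 : inner ℂ (A v) w - inner ℂ (A v') w'
      = inner ℂ (A (v - v')) w + inner ℂ (A v') (w - w') := by
    rw [map_sub, inner_sub_left, inner_sub_right]; ring
  have hA' : ∀ u, ‖A u‖ ≤ ‖u‖ := fun u => by
    simpa using A.le_of_opNorm_le hA u
  rw [h1]
  refine (norm_add_le _ _).trans ?_
  refine add_le_add ?_ ?_
  · exact (norm_inner_le_norm _ _).trans (by gcongr; exact hA' _)
  · exact (norm_inner_le_norm _ _).trans (by gcongr; exact hA' _)

theorem diff_bound {A B : H →L[ℂ] H} (hA : ‖A‖ ≤ 1) (hB : ‖B‖ ≤ 1) (v w v' w' : H) :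
    ‖inner ℂ ((A - B) v) w‖ ≤ ‖inner ℂ ((A - B) v') w'‖ +
      2 * (‖v - v'‖ * ‖w‖ + ‖v'‖ * ‖w - w'‖) := by
  have h1 := form_diff hA v w v' w'
  have h2 := form_diff hB v w v' w'
  have h3 : inner ℂ ((A - B) v) w = inner ℂ ((A - B) v') w' +
      ((inner ℂ (A v) w - inner ℂ (A v') w') - (inner ℂ (B v) w - inner ℂ (B v') w')) := by
    simp only [sub_apply, inner_sub_left]
    ring
  rw [h3]
  refine (norm_add_le _ _).trans ?_
  have h4 := norm_sub_le (inner ℂ (A v) w - inner ℂ (A v') w')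
    (inner ℂ (B v) w - inner ℂ (B v') w')
  linarith

variable [CompleteSpace H]

theorem exists_wot_limit {x : ℕ → H} (hx : DenseRange x) (A : ℕ → H →L[ℂ] H)
    (hA : ∀ m, ‖A m‖ ≤ 1) (hc : ∀ i j, CauchySeq fun m => inner ℂ (A m (x i)) (x j)) :
    ∃ B : H →L[ℂ] H, ‖B‖ ≤ 1 ∧
      ∀ v w, Tendsto (fun m => inner ℂ (A m v) w) atTop (𝓝 (inner ℂ (B v) w)) := by
  -- Cauchy for all vectors
  have hcau : ∀ v w, CauchySeq fun m => inner ℂ (A m v) w := by
    intro v w
    rw [Metric.cauchySeq_iff]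
    intro ε hε
    set C : ℝ := ‖v‖ + ‖w‖ + 1 with hC
    have hC0 : 0 < C := by positivity
    obtain ⟨i, hi⟩ := hx.exists_dist_lt v (ε := min 1 (ε / (8 * C))) (by positivity)
    obtain ⟨j, hj⟩ := hx.exists_dist_lt w (ε := min 1 (ε / (8 * C))) (by positivity)
    rw [dist_eq_norm] at hi hj
    have hi1 : ‖v - x i‖ < 1 := hi.trans_le (min_le_left _ _)
    have hi2 : ‖v - x i‖ < ε / (8 * C) := hi.trans_le (min_le_right _ _)
    have hj2 : ‖w - x j‖ < ε / (8 * C) := hj.trans_le (min_le_right _ _)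
    have hxi : ‖x i‖ ≤ C := by
      have := norm_sub_norm_le (x i) v
      rw [norm_sub_rev] at this
      have h0 : 0 ≤ ‖w‖ := norm_nonneg _
      linarith
    obtain ⟨N, hN⟩ := (Metric.cauchySeq_iff.mp (hc i j)) (ε / 4) (by positivity)
    refine ⟨N, fun m hm l hl => ?_⟩
    have h1 := hN m hm l hl
    rw [dist_eq_norm] at h1 ⊢
    have h2 := diff_bound (hA m) (hA l) v w (x i) (x j)
    simp only [sub_apply, inner_sub_left] at h2
    have h3 : ‖v - x i‖ * ‖w‖ + ‖x i‖ * ‖w - x j‖ ≤ ε / 4 := by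
      have hw : ‖w‖ ≤ C := by have := norm_nonneg v; linarith
      have a1 : ‖v - x i‖ * ‖w‖ ≤ ε / (8 * C) * C := by gcongr
      have a2 : ‖x i‖ * ‖w - x j‖ ≤ C * (ε / (8 * C)) := by gcongr
      have a3 : ε / (8 * C) * C = ε / 8 := by field_simp
      have a4 : C * (ε / (8 * C)) = ε / 8 := by field_simp
      linarith
    linarith
  choose L hL using fun v w => cauchySeq_tendsto_of_complete (hcau v w)
  have hbd : ∀ v w, ‖L v w‖ ≤ ‖v‖ * ‖w‖ := by
    intro v w
    refine le_of_tendsto (hL v w).norm (Eventually.of_forall fun m => ?_)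
    refine (norm_inner_le_norm _ _).trans ?_
    have : ‖A m v‖ ≤ ‖v‖ := by simpa using (A m).le_of_opNorm_le (hA m) v
    gcongr
  set B₀ : H →ₗ⋆[ℂ] H →ₗ[ℂ] ℂ := LinearMap.mk₂'ₛₗ (starRingEnd ℂ) (RingHom.id ℂ) L
    (fun v v' w => tendsto_nhds_unique (hL (v + v') w) (by
      have := (hL v w).add (hL v' w)
      simpa only [map_add, inner_add_left] using this))
    (fun c v w => tendsto_nhds_unique (hL (c • v) w) (by
      have := (hL v w).const_mul ((starRingEnd ℂ) c)
      simpa only [map_smul, inner_smul_left, smul_eq_mul] using this))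
    (fun v w w' => tendsto_nhds_unique (hL v (w + w')) (by
      have := (hL v w).add (hL v w')
      simpa only [inner_add_right] using this))
    (fun c v w => tendsto_nhds_unique (hL v (c • w)) (by
      have := (hL v w).const_mul c
      simpa only [inner_smul_right, RingHom.id_apply, smul_eq_mul] using this)) with hB₀
  set B₁ : H →L⋆[ℂ] H →L[ℂ] ℂ := B₀.mkContinuous₂ 1 (fun v w => by
    rw [one_mul]; exact hbd v w) with hB₁
  set B : H →L[ℂ] H := InnerProductSpace.continuousLinearMapOfBilin B₁ with hB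
  have hBL : ∀ v w, inner ℂ (B v) w = L v w := by
    intro v w
    rw [hB, InnerProductSpace.continuousLinearMapOfBilin_apply]
    rfl
  refine ⟨B, ?_, fun v w => by rw [hBL]; exact hL v w⟩
  refine ContinuousLinearMap.opNorm_le_bound _ zero_le_one fun v => ?_
  rw [one_mul]
  have h1 : ‖inner ℂ (B v) (B v)‖ ≤ ‖v‖ * ‖B v‖ := by rw [hBL]; exact hbd v _
  rw [inner_self_eq_norm_sq_to_K] at h1
  have h2 : ‖B v‖ * ‖B v‖ ≤ ‖v‖ * ‖B v‖ := by
    have : ‖((‖B v‖ : ℂ)) ^ 2‖ = ‖B v‖ * ‖B v‖ := by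
      rw [norm_pow, Complex.norm_real, norm_norm, sq]
    rw [← this]
    exact_mod_cast h1
  rcases (norm_nonneg (B v)).eq_or_lt with h3 | h3
  · rw [← h3]; exact norm_nonneg _
  · exact le_of_mul_le_mul_right h2 h3

/-- weak convergence becomes norm convergence after a finite rank projection. -/
theorem proj_norm_le (V : Submodule ℂ H) [FiniteDimensional ℂ V] (u : H) :
    ‖V.starProjection u‖ ≤ ∑ l, ‖inner ℂ ((stdOrthonormalBasis ℂ V l : V) : H) u‖ := by
  rw [(stdOrthonormalBasis ℂ V).starProjection_eq_sum_rankOne]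
  simp only [sum_apply, InnerProductSpace.rankOne_apply]
  refine (norm_sum_le _ _).trans (Finset.sum_le_sum fun l _ => ?_)
  rw [norm_smul]
  have : ‖((stdOrthonormalBasis ℂ V l : V) : H)‖ = 1 :=
    (stdOrthonormalBasis ℂ V).orthonormal.1 l
  rw [this, mul_one]

theorem proj_eq_sum (V : Submodule ℂ H) [FiniteDimensional ℂ V] (u : H) :
    V.starProjection u = ∑ l, inner ℂ ((stdOrthonormalBasis ℂ V l : V) : H) u •
      ((stdOrthonormalBasis ℂ V l : V) : H) := by
  rw [(stdOrthonormalBasis ℂ V).starProjection_eq_sum_rankOne]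
  simp only [sum_apply, InnerProductSpace.rankOne_apply]

theorem sub_proj_le (V : Submodule ℂ H) [FiniteDimensional ℂ V] (u v : H) (hv : v ∈ V) :
    ‖u - V.starProjection u‖ ≤ 2 * ‖u - v‖ := by
  have h1 : V.starProjection v = v := Submodule.starProjection_eq_self_iff.mpr hv
  have h2 : u - V.starProjection u = (u - v) - V.starProjection (u - v) := by
    rw [map_sub, h1]; abel
  rw [h2]
  refine (norm_sub_le _ _).trans ?_
  have h3 : ‖V.starProjection (u - v)‖ ≤ ‖u - v‖ := by
    simpa using V.starProjection.le_of_opNorm_le V.starProjection_norm_le (u - v)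
  linarith

end Run7.h276.BS
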